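import Pool.Agent.J4.H4.RegOrtho

/-!
# MP_5c7113_al, Q2: there is a nontrivial ortholattice identity that holds in all `Reg(e)`, `e` a
finite strict ordering

The identity is `(x ∧ y) ∨ (x ∧ y^⊥) ∨ (x^⊥ ∧ y) ∨ (x^⊥ ∧ y^⊥) = 1`. It fails in the ortholattice
with the six elements `0, 1, x, x^⊥, y, y^⊥`. More generally every identity `f = 1` such that `f` is
a Boolean tautology holds in all `Reg(e)`.

Proof. Let `c` be the set of the covering pairs of `e`. A covering pair belongs to the closure or to
the interior of a subset `s` of `e` if and only if it belongs to `s`. So `x ↦ x ∩ c` is a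
homomorphism of `Reg(e)` to the Boolean algebra of the subsets of `c`. As `e` is the transitive
closure of `c`, only the largest element `e` is mapped to `c`.
-/

namespace Pool.Agent.Results.MP_5c7113_al.OrtholatticeIdentity

open Pool.Agent.R645.RegTree Pool.Agent.J4.H4.RegOrtho

/-- `regOrtho e he` is the ortholattice `Reg(e)` with join `cl (a ∪ b)`, meet `cl (int (a ∩ b))`,
orthocomplement `cl (e ∖ a)`, smallest element `∅` and largest element `e`. -/
theorem result :
    (∀ f : OTerm, (∀ v : ℕ → Prop, f.truth v) →
      ∀ (E : Type) [Finite E] (e : Set (E × E)) (he : IsStrictOrdering e) (v : ℕ → Reg e),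
        @OTerm.eval (Reg e) (regOrtho e he.2) v f =
          @OTerm.eval (Reg e) (regOrtho e he.2) v OTerm.one) ∧
    ∃ s t : OTerm,
      (∀ (E : Type) [Finite E] (e : Set (E × E)) (he : IsStrictOrdering e) (v : ℕ → Reg e),
        @OTerm.eval (Reg e) (regOrtho e he.2) v s = @OTerm.eval (Reg e) (regOrtho e he.2) v t) ∧
      ∃ (K : Type) (_ : Ortholattice K) (v : ℕ → K), s.eval v ≠ t.eval v :=
  ⟨fun f hf _ _ e he v => tautology_holds e he f hf v,
    comm, OTerm.one, fun _ _ e he v => tautology_holds e he comm comm_taut v,
    MO2, inferInstance, _, comm_fails⟩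

end Pool.Agent.Results.MP_5c7113_al.OrtholatticeIdentity
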